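import Pool.Agent.R789.MadCore

/-!
# MP_054fd8_lc, Q1: a Pi-0-1 class with computable maximal almost disjointness

The answer is yes: there is a computable binary tree whose infinite paths are pairwise almost
disjoint and such that every infinite computable set has infinite intersection with a computable
path.
-/

namespace Pool.Agent.Results.MP_054fd8_lc.ComputableMAD

open Pool.Agent.R789.Mad
open Nat.Partrec (Code)

/-- `X` is an infinite path through the tree `T`. -/
def IsPath (T : List Bool → Bool) (X : ℕ → Bool) : Prop :=
  ∀ n, T ((List.range n).map X) = true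

/-- Elements of `f` below `m`. -/
def F (f : ℕ → Bool) (m : ℕ) : List ℕ := (List.range m).filter (fun j => f j = true)

theorem mem_F (f : ℕ → Bool) (m j : ℕ) : j ∈ F f m ↔ j < m ∧ f j = true := by
  unfold F
  simp

theorem F_sorted (f : ℕ → Bool) (m : ℕ) : (F f m).Pairwise (fun a b => a < b) := by
  unfold F
  exact List.pairwise_lt_range.filter _

theorem getD_map (f : ℕ → Bool) {j n : ℕ} (h : j < n) :
    ((List.range n).map f).getD j false = f j := by
  simp [List.getD_eq_getElem?_getD, h]

theorem ones_map (f : ℕ → Bool) {m n : ℕ} (h : m ≤ n) :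
    ones ((List.range n).map f) m = F f m := by
  unfold ones F
  apply List.filter_congr
  intro j hj
  rw [getD_map f (lt_of_lt_of_le (List.mem_range.1 hj) h)]

theorem loc_map (f : ℕ → Bool) {m n : ℕ} (h : m < n) :
    loc ((List.range n).map f) m ↔ (f m = false ∨ F f m = [] ∨
      (F f m).reverse = L (Denumerable.ofNat (List ℕ) (F f m).headI) m) := by
  unfold loc
  rw [getD_map f h, ones_map f h.le]
  rfl

theorem isPath_iff (f : ℕ → Bool) : IsPath T f ↔ ∀ m, f m = true → (F f m = [] ∨
    (F f m).reverse = L (Denumerable.ofNat (List ℕ) (F f m).headI) m) := by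
  unfold IsPath T
  constructor
  · intro h m hm
    have h1 := of_decide_eq_true (h (m + 1)) m (by simp)
    rw [loc_map f (Nat.lt_succ_self m)] at h1
    rcases h1 with h1 | h1
    · rw [hm] at h1; exact absurd h1 (by simp)
    · exact h1
  · intro h n
    apply decide_eq_true
    intro m hm
    rw [List.mem_range, List.length_map, List.length_range] at hm
    rw [loc_map f hm]
    by_cases hf : f m = true
    · exact Or.inr (h m hf)
    · exact Or.inl (by simpa using hf)

theorem getD_append (u v : List Bool) {j : ℕ} (h : j < u.length) :
    (u ++ v).getD j false = u.getD j false := by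
  simp [List.getD_eq_getElem?_getD, List.getElem?_append_left h]

theorem prefix_closed (u v : List Bool) (h : T (u ++ v) = true) : T u = true := by
  unfold T at h ⊢
  apply decide_eq_true
  intro m hm
  have hm' := List.mem_range.1 hm
  have h1 := of_decide_eq_true h m (by rw [List.mem_range, List.length_append]; omega)
  have h2 : ones (u ++ v) m = ones u m := by
    unfold ones
    apply List.filter_congr
    intro j hj
    rw [getD_append u v (lt_trans (List.mem_range.1 hj) hm')]
  unfold loc at h1 ⊢
  rwa [getD_append u v hm', h2] at h1

theorem eq_of_sorted {a b : List ℕ} (ha : a.Pairwise (fun x y => y < x))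
    (hb : b.Pairwise (fun x y => y < x)) (h : ∀ x, x ∈ a ↔ x ∈ b) : a = b := by
  have hn : ∀ {c : List ℕ}, c.Pairwise (fun x y => y < x) → c.Nodup := fun hc =>
    hc.imp (fun hxy => (ne_of_lt hxy).symm)
  exact ((List.perm_ext_iff_of_nodup (hn ha) (hn hb)).2 h).eq_of_pairwise
    (fun x y _ _ h1 h2 => absurd h1 (not_lt.2 h2.le)) ha hb

theorem path_of_X (l : List ℕ) (f : ℕ → Bool) (hf : ∀ y, f y = true ↔ y ∈ X l) :
    IsPath T f := by
  rw [isPath_iff]
  intro m hm
  have hmX := (hf m).1 hm
  by_cases hne : m = Encodable.encode l
  · left
    rw [List.eq_nil_iff_forall_not_mem]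
    intro j hj
    rw [mem_F, hf] at hj
    have := le_of_mem l hj.2
    omega
  · right
    have h1 : (F f m).reverse = L l m := by
      apply eq_of_sorted
      · rw [List.pairwise_reverse]
        exact F_sorted f m
      · exact L_sorted l m
      · intro x
        rw [List.mem_reverse, mem_F, hf, ← X_below l hmX hne]
        tauto
    have h2 : (F f m).headI = Encodable.encode l := by
      obtain ⟨pre, hpre⟩ := L_base l m
      have : F f m = Encodable.encode l :: pre.reverse := by
        rw [← List.reverse_reverse (F f m), h1, ← hpre]
        simp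
      rw [this]
      rfl
    rw [h2, Denumerable.ofNat_encode]
    exact h1

theorem X_of_path (f : ℕ → Bool) (hf : IsPath T f) (hinf : {n | f n = true}.Infinite) :
    ∃ l, ∀ y, f y = true ↔ y ∈ X l := by
  rw [isPath_iff] at hf
  classical
  have hex : ∃ a, f a = true := hinf.nonempty
  set a := Nat.find hex with ha
  have hfa : f a = true := Nat.find_spec hex
  have hmin : ∀ y, f y = true → a ≤ y := fun y hy => Nat.find_min' hex hy
  have key : ∀ m, f m = true → a < m →
      (F f m).reverse = L (Denumerable.ofNat (List ℕ) a) m := by
    intro m hm ham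
    have hmem : a ∈ F f m := (mem_F f m a).2 ⟨ham, hfa⟩
    have hne : F f m ≠ [] := List.ne_nil_of_mem hmem
    have hhead : (F f m).headI = a := by
      apply le_antisymm
      · have hs := F_sorted f m
        rcases hF : F f m with _ | ⟨b, s⟩
        · exact absurd hF hne
        · rw [hF] at hs hmem
          rw [List.pairwise_cons] at hs
          rcases List.mem_cons.1 hmem with h | h
          · rw [← h]; rfl
          · exact (hs.1 a h).le
      · exact hmin _ ((mem_F f m _).1 (headI_mem hne)).2
    rcases hf m hm with h | h
    · exact absurd h hne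
    · rwa [hhead] at h
  refine ⟨Denumerable.ofNat (List ℕ) a, fun y => ⟨fun hy => ?_, ?_⟩⟩
  · obtain ⟨m, hm, hym⟩ := hinf.exists_gt (max y a)
    have h1 := key m hm (lt_of_le_of_lt (le_max_right _ _) hym)
    refine ⟨m, ?_⟩
    rw [← h1, List.mem_reverse, mem_F]
    exact ⟨lt_of_le_of_lt (le_max_left _ _) hym, hy⟩
  · rintro ⟨t, ht⟩
    obtain ⟨m, hm, htm⟩ := hinf.exists_gt (max t a)
    have h1 := key m hm (lt_of_le_of_lt (le_max_right _ _) htm)
    have h2 := L_mem_mono _ ((le_max_left t a).trans htm.le) ht
    rw [← h1, List.mem_reverse, mem_F] at h2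
    exact h2.2

/-- There is a computable binary tree `T` (a prefix-closed computable set of finite binary
strings) such that any two distinct infinite paths of `T` (computable or not) are almost disjoint,
and for every infinite computable set `R` there is a computable path `X` of `T` with infinite
intersection with `R`. -/
theorem result : ∃ T : List Bool → Bool, Computable T ∧
    (∀ u v : List Bool, T (u ++ v) = true → T u = true) ∧
    (∀ X Y : ℕ → Bool, IsPath T X → IsPath T Y → X ≠ Y →
      {n | X n = true ∧ Y n = true}.Finite) ∧
    (∀ R : ℕ → Bool, Computable R → {n | R n = true}.Infinite →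
      ∃ X : ℕ → Bool, IsPath T X ∧ Computable X ∧ {n | X n = true ∧ R n = true}.Infinite) := by
  refine ⟨T, prim_T.to_comp, prefix_closed, ?_, ?_⟩
  · intro f g hf hg hne
    by_cases h1 : {n | f n = true}.Infinite
    · by_cases h2 : {n | g n = true}.Infinite
      · obtain ⟨l, hl⟩ := X_of_path f hf h1
        obtain ⟨l', hl'⟩ := X_of_path g hg h2
        have e1 : {n | f n = true} = X l := Set.ext hl
        have e2 : {n | g n = true} = X l' := Set.ext hl'
        have hll : l ≠ l' := by
          rintro rfl
          apply hne
          funext y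
          rw [Bool.eq_iff_iff, hl, hl']
        have h3 := almost_disjoint l l' (e1 ▸ h1) (e2 ▸ h2) hll
        rw [← e1, ← e2] at h3
        exact h3
      · exact (Set.not_infinite.1 h2).subset fun n hn => hn.2
    · exact (Set.not_infinite.1 h1).subset fun n hn => hn.1
  · intro R hR hinf
    have hc : Computable (fun n => cond (R n) 1 0) :=
      Computable.cond hR (Computable.const 1) (Computable.const 0)
    obtain ⟨c, hcode⟩ := Nat.Partrec.Code.exists_code.1 (Partrec.nat_iff.1 hc.partrec)
    obtain ⟨l, hlen, hgood⟩ := Good_exists (Encodable.encode c)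
    have hprog : prog l = c := by
      unfold prog
      rw [hlen, Denumerable.ofNat_encode]
    have hr : ∀ y, Nat.Partrec.Code.eval (prog l) y = Part.some (cond (R y) 1 0) := by
      intro y
      rw [hprog, hcode]
      rfl
    obtain ⟨b, hb, hbR⟩ := maximal l hgood R hr hinf
    classical
    refine ⟨fun y => decide (y ∈ X b), ?_, ?_, ?_⟩
    · exact path_of_X b _ (by simp)
    · exact computable_X b hb _ (by simp)
    · refine hbR.mono ?_
      rintro y ⟨h1, h2⟩
      exact ⟨by simpa using h1, h2⟩

end Pool.Agent.Results.MP_054fd8_lc.ComputableMAD
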